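import Pool.Agent.helper64.PB.SpecW

set_option autoImplicit false

namespace Pool.Agent.PB

theorem BKP_aux (hCLP : CLP_stmt) (G : Set Gate) (k : ℕ) (hk : 2 ≤ k) (hT : InCl G (fT k)) (n : ℕ)
    (hn : 1 ≤ n) : ∀ (S : Finset (Fin n → Bool)),
      (∀ a : Fin k → Fin n → Bool, (∀ j, a j ∈ S) → ∃ i, ∀ j, a j i = true) →
      ∃ t : BF n, InCl G t ∧ ∀ x ∈ S, t x = true := by
  classical
  intro S
  induction S using Finset.strongInduction with
  | H S ih =>
    intro hS
    rcases S.eq_empty_or_nonempty with hemp | ⟨s₀, hs₀⟩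
    · exact ⟨fun x => x ⟨0, hn⟩, hCLP.1 G n ⟨0, hn⟩, fun x hx => by
        rw [hemp] at hx
        exact absurd hx (Finset.notMem_empty x)⟩
    · by_cases hc : S.card ≤ k
      · obtain ⟨i, hi⟩ := hS (fun j => if h : (j : ℕ) < S.card then
          ((S.equivFin.symm ⟨j, h⟩ : S) : Fin n → Bool) else s₀) (by
            intro j
            by_cases h : (j : ℕ) < S.card
            · simp only [h, dite_true]
              exact (S.equivFin.symm ⟨j, h⟩).2
            · simp only [h, dite_false]
              exact hs₀)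
        refine ⟨fun x => x i, hCLP.1 G n i, fun x hx => ?_⟩
        have h1 := hi ⟨(S.equivFin ⟨x, hx⟩ : ℕ), lt_of_lt_of_le (S.equivFin ⟨x, hx⟩).2 hc⟩
        have h2 : ((S.equivFin ⟨x, hx⟩ : Fin S.card) : ℕ) < S.card := (S.equivFin ⟨x, hx⟩).2
        simp only [h2, dite_true] at h1
        have h3 : (⟨((S.equivFin ⟨x, hx⟩ : Fin S.card) : ℕ), h2⟩ : Fin S.card) = S.equivFin ⟨x, hx⟩ :=
          Fin.ext rfl
        rw [h3, Equiv.symm_apply_apply] at h1
        exact h1
      · have hc' : k + 1 ≤ S.card := by omega
        have hex : ∃ s : Fin (k + 1) → Fin n → Bool, (∀ j, s j ∈ S) ∧ ∀ i j, s i = s j → i = j := by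
          refine ⟨fun j => ((S.equivFin.symm (Fin.castLE hc' j) : S) : Fin n → Bool),
            fun j => (S.equivFin.symm (Fin.castLE hc' j)).2, fun i j hij => ?_⟩
          have h1 := S.equivFin.symm.injective (Subtype.ext hij)
          exact Fin.castLE_injective hc' h1
        obtain ⟨s, hs, hinj⟩ := hex
        have hstep : ∀ j, ∃ t : BF n, InCl G t ∧ ∀ x ∈ S.erase (s j), t x = true := by
          intro j
          refine ih (S.erase (s j)) (Finset.erase_ssubset (hs j)) (fun a ha => hS a (fun l => ?_))
          exact Finset.mem_of_mem_erase (ha l)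
        choose t ht htx using hstep
        refine ⟨fun x => fT k (fun j => t j x), hCLP.2 G (k + 1) n (fT k) t hT ht, fun x hx => ?_⟩
        unfold fT
        rw [decide_eq_true_iff]
        intro i j hij
        by_cases h : x = s i
        · right
          apply htx j x
          rw [Finset.mem_erase]
          exact ⟨fun h' => hij (hinj i j (h.symm.trans h')), hx⟩
        · left
          apply htx i x
          rw [Finset.mem_erase]
          exact ⟨h, hx⟩

theorem BKP (hCLP : CLP_stmt) : BKP_stmt := by
  classical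
  intro G k hk hT n hn f hf
  obtain ⟨t, ht, htx⟩ := BKP_aux hCLP G k hk hT n hn
    (Finset.univ.filter (fun x => f x = true)) (fun a ha => hf a (fun j => by
      have := ha j
      rw [Finset.mem_filter] at this
      exact this.2))
  exact ⟨t, ht, fun x hx => htx x (Finset.mem_filter.2 ⟨Finset.mem_univ _, hx⟩)⟩

end Pool.Agent.PB
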